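import Pool.Agent.H.MP_56c207_gt.Epg

namespace Pool.Agent.Results.MP_56c207_gt.NotUnique

open Pool.Agent.H.MP_56c207_gt Pool.Agent.H.MP_211c6f_gt in
theorem result :
    ∃ A : Set unitInterval, A.Nonempty ∧
      ∃ (F G : Type) (_ : MetricSpace F) (_ : MetricSpace G) (s : F) (t : G),
        SmoothFan F s ∧ SmoothFan G t ∧ EndHomog F ∧ EndHomog G ∧ EPG F s A ∧ EPG G t A ∧
          IsEmpty (F ≃ₜ G) := by
  obtain ⟨p, hp⟩ := fan_of (T := TA {a | a % 3 = 2}) (d := 2) fun n => by simp [TA]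
  obtain ⟨q, hq⟩ := fan_of (T := TA {a | a % 3 ≠ 2}) (d := 0) fun n => by simp [TA]
  exact ⟨AA, ⟨0, Or.inl rfl⟩, Phi (TA {a | a % 3 = 2}), Phi (TA {a | a % 3 ≠ 2}),
    TopologicalSpace.metrizableSpaceMetric _, TopologicalSpace.metrizableSpaceMetric _, _, _,
    smoothFan (cone (TA_tree _)) p hp, smoothFan (cone (TA_tree _)) q hq,
    endHomog (a := 2) (by simp), endHomog (a := 0) (by simp), richG.epg (TA_tree _),
    richF.epg (TA_tree _), ⟨not_homeo⟩⟩

end Pool.Agent.Results.MP_56c207_gt.NotUnique
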